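import Pool.Agent.helper55.NM.Spec

/-! Project NM, row PTB: the bound for a good order. -/

namespace Pool.Agent.helper25.NM

open Finset Nat Pool.Agent.NM

theorem Yp_succ {q : ℕ} (y : Fin q → ℝ) (τ : Equiv.Perm (Fin q)) (j : ℕ) (hj : j < q) :
    Yp y τ (j + 1) = Yp y τ j + y (τ ⟨j, hj⟩) := by
  unfold Yp
  have : univ.filter (fun i : Fin q => i.val < j + 1) =
      insert ⟨j, hj⟩ (univ.filter (fun i : Fin q => i.val < j)) := by
    ext i
    simp only [mem_filter, mem_univ, true_and, mem_insert, Fin.ext_iff]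
    omega
  rw [this, Finset.sum_insert (by simp), add_comm]

theorem Yp_mono {q : ℕ} (y : Fin q → ℝ) (hy : ∀ i, 0 < y i) (τ : Equiv.Perm (Fin q)) {a b : ℕ}
    (h : a ≤ b) : Yp y τ a ≤ Yp y τ b := by
  unfold Yp
  apply Finset.sum_le_sum_of_subset_of_nonneg
  · intro i hi
    simp only [mem_filter, mem_univ, true_and] at hi ⊢
    omega
  · intro i _ _
    exact (hy _).le

theorem Yp_lt {q : ℕ} (y : Fin q → ℝ) (hy : ∀ i, 0 < y i) (τ : Equiv.Perm (Fin q)) {a b : ℕ}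
    (h : a < b) (hb : b ≤ q) : Yp y τ a < Yp y τ b := by
  have h1 := Yp_succ y τ a (by omega)
  have h2 := Yp_mono y hy τ (show a + 1 ≤ b by omega)
  have := hy (τ ⟨a, by omega⟩)
  linarith

theorem Yp_inj {q : ℕ} (y : Fin q → ℝ) (hy : ∀ i, 0 < y i) (τ : Equiv.Perm (Fin q)) {a b : ℕ}
    (ha : a ≤ q) (hb : b ≤ q) (h : Yp y τ a = Yp y τ b) : a = b := by
  rcases lt_trichotomy a b with h1 | h1 | h1
  · exact absurd h (Yp_lt y hy τ h1 hb).ne
  · exact h1
  · exact absurd h.symm (Yp_lt y hy τ h1 ha).ne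

open Classical in
theorem Wt_eq (p q k : ℕ) (X : Fin p → ℝ) (y : Fin q → ℝ) (hy : ∀ i, 0 < y i)
    (τ : Equiv.Perm (Fin q)) (jf : Finset (Fin p) → ℕ)
    (hjf : ∀ I, (∃ j, j ≤ q ∧ I.card + j ≤ k ∧ Yp y τ j = ∑ i ∈ I, X i) →
      jf I ≤ q ∧ I.card + jf I ≤ k ∧ Yp y τ (jf I) = ∑ i ∈ I, X i) :
    Wt X y k τ = ∑ I ∈ univ.filter (fun I : Finset (Fin p) => I.Nonempty ∧
      ∃ j, j ≤ q ∧ I.card + j ≤ k ∧ Yp y τ j = ∑ i ∈ I, X i), q.choose (jf I) := by
  unfold Wt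
  rw [← Finset.filter_filter, Finset.sum_filter (s := univ.filter (fun I : Finset (Fin p) => I.Nonempty))]
  refine Finset.sum_congr (by congr) ?_
  intro I _
  by_cases h : ∃ j, j ≤ q ∧ I.card + j ≤ k ∧ Yp y τ j = ∑ i ∈ I, X i
  · rw [if_pos h]
    obtain ⟨h1, h2, h3⟩ := hjf I h
    rw [Finset.sum_eq_single (jf I)]
    · rw [if_pos ⟨h2, h3⟩]
    · intro b hb hne
      rw [if_neg]
      rintro ⟨-, h5⟩
      rw [mem_range] at hb
      exact hne (Yp_inj y hy τ (by omega) h1 (h5.trans h3.symm))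
    · intro hn
      exact absurd (mem_range.2 (by omega)) hn
  · rw [if_neg h]
    refine Finset.sum_eq_zero fun j hj => ?_
    rw [if_neg]
    rintro ⟨h4, h5⟩
    rw [mem_range] at hj
    exact h ⟨j, by omega, h4, h5⟩

open Classical in
theorem PTB (hGG2 : GG2_stmt) (hGG3 : GG3_stmt) (hBIN : BIN_stmt) : PTB_stmt := by
  intro p q k L X y ε τ hX hy hp hε hpL hkq hpq hρ1 hρ2 hkR hgood
  have hYm : ∀ {a b : ℕ}, a ≤ b → Yp y τ a ≤ Yp y τ b := fun h => Yp_mono y hy τ h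
  have hYl : ∀ {a b : ℕ}, a < b → b ≤ q → Yp y τ a < Yp y τ b := fun h h' => Yp_lt y hy τ h h'
  obtain ⟨jf, hjf⟩ : ∃ jf : Finset (Fin p) → ℕ,
      ∀ I, (∃ j, j ≤ q ∧ I.card + j ≤ k ∧ Yp y τ j = ∑ i ∈ I, X i) →
      jf I ≤ q ∧ I.card + jf I ≤ k ∧ Yp y τ (jf I) = ∑ i ∈ I, X i := by
    refine ⟨fun I => if h : ∃ j, j ≤ q ∧ I.card + j ≤ k ∧ Yp y τ j = ∑ i ∈ I, X i
      then h.choose else 0, ?_⟩
    intro I h
    simp only [dif_pos h]
    exact h.choose_spec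
  have hW := Wt_eq p q k X y hy τ jf hjf
  set HH : Finset (Finset (Fin p)) := univ.filter (fun I : Finset (Fin p) => I.Nonempty ∧
      ∃ j, j ≤ q ∧ I.card + j ≤ k ∧ Yp y τ j = ∑ i ∈ I, X i) with hHH
  set ρ : ℝ := (k : ℝ) / ((p : ℝ) + q) with hρ
  obtain ⟨R, hR⟩ : ∃ R : ℝ, R = 1 - 2 * ε := ⟨_, rfl⟩
  rw [← hR] at hkR ⊢
  have hε12 : ε ≤ 1 / 12 := by linarith
  have hR0 : 0 ≤ R := by rw [hR]; linarith
  have hR1 : R ≤ 1 := by rw [hR]; linarith
  have hρ0 : 0 ≤ ρ := by linarith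
  have hρ1' : 0 ≤ 1 - ρ := by linarith
  obtain ⟨d, hd⟩ : ∃ d : Finset (Fin p) → ℕ, ∀ I, d I = k - I.card - jf I := ⟨_, fun _ => rfl⟩
  have hN : (0:ℝ) ≤ ((p + q).choose k : ℝ) := Nat.cast_nonneg _
  have hcard : ∀ I : Finset (Fin p), I.card ≤ p := fun I => by simpa using Finset.card_le_univ I
  have hmem : ∀ I ∈ HH, I.Nonempty ∧ jf I ≤ q ∧ I.card + jf I ≤ k ∧ Yp y τ (jf I) = ∑ i ∈ I, X i := by
    intro I hI
    have h := (mem_filter.1 hI).2
    exact ⟨h.1, hjf I h.2⟩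
  have hterm : ∀ I ∈ HH, (1 - (p : ℝ) ^ 2 / ((p : ℝ) + q)) * (q.choose (jf I) : ℝ) ≤
      ρ ^ I.card * (1 - ρ) ^ (p - I.card) * R ^ d I * ((p + q).choose k : ℝ) := by
    intro I hI
    obtain ⟨-, h1, h2, h3⟩ := hmem I hI
    have := hBIN p q k I.card (d I) R (hcard I) (by rw [hd]; omega) hkq hpq hR0 hkR
    have h4 : k - I.card - d I = jf I := by rw [hd]; omega
    rw [h4] at this
    exact this
  have hsum1 : (1 - (p : ℝ) ^ 2 / ((p : ℝ) + q)) * (Wt X y k τ : ℝ) ≤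
      (∑ I ∈ HH, ρ ^ I.card * (1 - ρ) ^ (p - I.card) * R ^ d I) * ((p + q).choose k : ℝ) := by
    rw [hW, Nat.cast_sum, Finset.mul_sum, Finset.sum_mul]
    exact Finset.sum_le_sum hterm
  refine hsum1.trans (mul_le_mul_of_nonneg_right ?_ hN)
  rw [← Finset.sum_filter_add_sum_filter_not HH (fun I => d I ≤ L)]
  refine add_le_add ?_ ?_
  · have hk0 : 0 < k := by omega
    have hYk : 0 < Yp y τ k := by
      have := hYl (show 0 < k by omega) hkq
      have h0 : Yp y τ 0 = 0 := by simp [Yp]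
      linarith
    have hp0 : (0:ℝ) < (p:ℝ) + 1 := by positivity
    have hg : (p:ℝ) * Yp y τ k < ((p:ℝ) + 1) * Yp y τ (k - (p + L)) := by
      have h1 := not_le.1 hgood
      push_cast at h1
      nlinarith
    obtain ⟨S, hS⟩ : ∃ S : Finset (Fin p), ∀ e, e ∈ S ↔ ((p:ℝ) + 1) * X e < Yp y τ k :=
      ⟨univ.filter (fun e => ((p:ℝ) + 1) * X e < Yp y τ k), fun e => by simp⟩
    set H := HH.filter (fun I => d I ≤ L) with hH
    have hHm : ∀ I ∈ H, I.Nonempty ∧ jf I ≤ q ∧ I.card + jf I ≤ k ∧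
        Yp y τ (jf I) = ∑ i ∈ I, X i ∧ d I ≤ L := by
      intro I hI
      obtain ⟨h1, h2⟩ := mem_filter.1 hI
      obtain ⟨a, b, c, e⟩ := hmem I h1
      exact ⟨a, b, c, e, h2⟩
    have hlow : ∀ I ∈ H, (p:ℝ) * Yp y τ k < ((p:ℝ)+1) * ∑ i ∈ I, X i := by
      intro I hI
      obtain ⟨h0, h1, h2, h3, h4⟩ := hHm I hI
      have hc := hcard I
      rw [hd] at h4
      have h5 : k - (p + L) ≤ jf I := by omega
      have h6 := hYm h5
      rw [← h3]
      exact hg.trans_le (mul_le_mul_of_nonneg_left h6 hp0.le)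
    have hup : ∀ I ∈ H, ∑ i ∈ I, X i ≤ Yp y τ k := by
      intro I hI
      obtain ⟨h0, h1, h2, h3, h4⟩ := hHm I hI
      rw [← h3]
      exact hYm (by omega)
    have hHyp : Hyp p S H d := by
      refine ⟨?_, ?_, ?_⟩
      · intro I hI hIS
        have hl := hlow I hI
        have h1 : ((p:ℝ)+1) * ∑ i ∈ I, X i ≤ I.card * Yp y τ k := by
          rw [Finset.mul_sum]
          calc ∑ i ∈ I, ((p:ℝ)+1) * X i ≤ ∑ i ∈ I, Yp y τ k :=
                Finset.sum_le_sum fun i hi => ((hS i).1 (hIS hi)).le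
            _ = _ := by rw [Finset.sum_const, nsmul_eq_mul]
        have h2 : (I.card : ℝ) ≤ p := by exact_mod_cast hcard I
        have h3 : (I.card : ℝ) * Yp y τ k ≤ p * Yp y τ k := mul_le_mul_of_nonneg_right h2 hYk.le
        linarith
      · intro I₁ hI₁ I₂ hI₂ hSS hsub
        by_contra hne
        obtain ⟨e, he2, he1⟩ : ∃ e ∈ I₂, e ∉ I₁ := by
          by_contra hcon
          push Not at hcon
          exact hne (Finset.Subset.antisymm hsub hcon)
        have heS : e ∉ S := by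
          intro heS
          have : e ∈ I₂ ∩ S := mem_inter.2 ⟨he2, heS⟩
          rw [← hSS] at this
          exact he1 (mem_inter.1 this).1
        have hXe : Yp y τ k ≤ ((p:ℝ)+1) * X e := by
          by_contra hc
          exact heS ((hS e).2 (not_le.1 hc))
        have hs : ∑ i ∈ I₁, X i + X e ≤ ∑ i ∈ I₂, X i := by
          have : ∑ i ∈ insert e I₁, X i ≤ ∑ i ∈ I₂, X i :=
            Finset.sum_le_sum_of_subset_of_nonneg (insert_subset he2 hsub) fun i _ _ => (hX i).le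
          rw [Finset.sum_insert he1] at this
          linarith
        have h1 := hlow I₁ hI₁
        have h2 := hup I₂ hI₂
        have h3 : ((p:ℝ)+1) * (∑ i ∈ I₁, X i + X e) ≤ ((p:ℝ)+1) * Yp y τ k :=
          mul_le_mul_of_nonneg_left (hs.trans h2) hp0.le
        nlinarith
      · intro I₁ hI₁ I₂ hI₂ hss
        have hlt : ∑ i ∈ I₁, X i < ∑ i ∈ I₂, X i := by
          obtain ⟨e, he2, he1⟩ := Finset.exists_of_ssubset hss
          exact Finset.sum_lt_sum_of_subset hss.1 he2 he1 (hX e) (fun j _ _ => (hX j).le)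
        obtain ⟨_, a1, a2, a3, a4⟩ := hHm I₁ hI₁
        obtain ⟨_, b1, b2, b3, b4⟩ := hHm I₂ hI₂
        have hj : jf I₁ < jf I₂ := by
          by_contra hc
          have := hYm (not_lt.1 hc)
          linarith
        have hcl := Finset.card_lt_card hss
        rw [hd, hd]
        omega
    by_cases hb : 3 ≤ (univ \ S).card
    · exact hGG3 p S H d ε ρ R hHyp hε hρ1 hρ2 hR0 hR.le hb
    · exact hGG2 p S H d ε ρ R hHyp hε hρ1 hρ2 hR0 hR.le hp (by omega)
  · have hnn : ∀ I : Finset (Fin p), 0 ≤ ρ ^ I.card * (1 - ρ) ^ (p - I.card) := fun I =>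
      mul_nonneg (pow_nonneg hρ0 _) (pow_nonneg hρ1' _)
    calc ∑ I ∈ HH.filter (fun I => ¬ d I ≤ L), ρ ^ I.card * (1 - ρ) ^ (p - I.card) * R ^ d I
        ≤ ∑ I ∈ HH.filter (fun I => ¬ d I ≤ L), ρ ^ I.card * (1 - ρ) ^ (p - I.card) * R ^ L := by
          refine Finset.sum_le_sum fun I hI => ?_
          refine mul_le_mul_of_nonneg_left ?_ (hnn I)
          exact pow_le_pow_of_le_one hR0 hR1 (by have := (mem_filter.1 hI).2; omega)
      _ ≤ ∑ I : Finset (Fin p), ρ ^ I.card * (1 - ρ) ^ (p - I.card) * R ^ L :=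
          Finset.sum_le_sum_of_subset_of_nonneg (Finset.subset_univ _) fun I _ _ =>
            mul_nonneg (hnn I) (pow_nonneg hR0 _)
      _ = R ^ L := by
          rw [← Finset.sum_mul]
          have := Fintype.sum_pow_mul_eq_add_pow (Fin p) ρ (1 - ρ)
          rw [Fintype.card_fin] at this
          rw [this]
          simp

end Pool.Agent.helper25.NM
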